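import Pool.Agent.Lib.MP_7d358c_an.Certificates

/-!
# Three balls of volume `1/3` do not minimize `λ₃` in dimensions 4, 5 and 6

`Q2` asks whether in every dimension `N ≥ 4` every minimizer for the third Dirichlet eigenvalue
`λ₃` under the constraint `|Ω| = 1` is a union of three pairwise disjoint balls of volume `1/3`.
We prove that for `N = 4, 5, 6` a suitable ellipsoid (two equal long axes) of volume `1` has a
strictly smaller `λ₃` than any three such balls.

The upper bound for the ellipsoid uses the three-dimensional space of test functions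
`c₀ w + (c₁ x₁ + c₂ x₂) h w`, `w` the defining polynomial of the ellipsoid and `h` a polynomial
(after a smooth cut-off), the integrals being evaluated by explicit divergence identities.  The
lower bound for the balls uses a polynomial radial supersolution (Barta's method).
-/

open MeasureTheory Metric
open Pool.Agent.Lib.MP_7d358c_an

namespace Pool.Agent.Results.MP_7d358c_an.ThreeBallsNotOptimal

/-- `Ω` is a minimizer for `λ_k` among the open sets of volume `1`. -/
def IsMinimizer {N : ℕ} (k : ℕ) (Ω : Set (EuclideanSpace ℝ (Fin N))) : Prop :=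
  IsOpen Ω ∧ volume Ω = 1 ∧
    ∀ Ω' : Set (EuclideanSpace ℝ (Fin N)), IsOpen Ω' → volume Ω' = 1 → lam k Ω ≤ lam k Ω'

/-- In dimensions `4, 5, 6` some open convex set of volume `1` has smaller `λ₃` than every union
of three disjoint balls of volume `1/3`; in particular no such union is a minimizer for `λ₃`. -/
theorem result (N : ℕ) (hN : N = 4 ∨ N = 5 ∨ N = 6) :
    (∃ E : Set (EuclideanSpace ℝ (Fin N)), IsOpen E ∧ Convex ℝ E ∧ volume E = 1 ∧
      ∀ Ω : Set (EuclideanSpace ℝ (Fin N)), IsThreeBalls Ω → lam 3 E < lam 3 Ω) ∧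
    ∀ Ω : Set (EuclideanSpace ℝ (Fin N)), IsMinimizer 3 Ω → ¬ IsThreeBalls Ω := by
  have key : ∃ E : Set (EuclideanSpace ℝ (Fin N)), IsOpen E ∧ Convex ℝ E ∧ volume E = 1 ∧
      ∀ Ω : Set (EuclideanSpace ℝ (Fin N)), IsThreeBalls Ω → lam 3 E < lam 3 Ω := by
    rcases hN with rfl | rfl | rfl
    · exact dim4
    · exact dim5
    · exact dim6
  refine ⟨key, fun Ω hmin hballs => ?_⟩
  obtain ⟨E, hE1, -, hE2, hE3⟩ := key
  exact absurd (hmin.2.2 E hE1 hE2) (not_le.mpr (hE3 Ω hballs))

end Pool.Agent.Results.MP_7d358c_an.ThreeBallsNotOptimal
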